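import Mathlib

set_option autoImplicit false
set_option maxRecDepth 1000000

namespace Pool.Agent.Results.MP_f8a98e_co.Counter

/-- the entry `w_j` of the one-line notation, positions numbered from 1 -/
def ent {n : ℕ} (w : Equiv.Perm (Fin n)) (j : ℕ) : ℕ :=
  if h : j - 1 < n then (w ⟨j - 1, h⟩).val else 0

/-- the double descent set -/
def DDes {n : ℕ} (w : Equiv.Perm (Fin n)) : Finset ℕ :=
  (Finset.Icc 2 (n - 1)).filter (fun i => ent w i < ent w (i - 1) ∧ ent w (i + 1) < ent w i)

/-- the number of permutations of `[n]` with double descent set `I` -/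
def dd (I : Finset ℕ) (n : ℕ) : ℕ :=
  (Finset.univ.filter (fun w : Equiv.Perm (Fin n) => DDes w = I)).card

/-- entries of a list, positions numbered from 1 -/
def entL (l : List ℕ) (j : ℕ) : ℕ := l.getD (j - 1) 0

def isDD (l : List ℕ) (i : ℕ) : Bool :=
  Nat.blt (entL l i) (entL l (i - 1)) && Nat.blt (entL l (i + 1)) (entL l i)

def good (k : ℕ) (l : List ℕ) : Bool :=
  [2, 3, 4, 5, 6].all (fun i => isDD l i == Nat.beq i k)

def toL (w : Equiv.Perm (Fin 7)) : List ℕ := List.ofFn (fun i => (w i).val)

lemma ent_eq (w : Equiv.Perm (Fin 7)) (j : ℕ) : ent w j = entL (toL w) j := by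
  unfold ent entL toL
  split_ifs with h
  · rw [List.getD_eq_getElem _ _ (by simpa using h)]
    simp only [List.getElem_ofFn]
  · rw [List.getD_eq_default _ _ (by simpa using h)]

lemma good_iff (k : ℕ) (hk : 2 ≤ k) (hk' : k ≤ 6) (w : Equiv.Perm (Fin 7)) :
    DDes w = {k} ↔ good k (toL w) = true := by
  have h1 : ∀ i, isDD (toL w) i = true ↔
      (ent w i < ent w (i - 1) ∧ ent w (i + 1) < ent w i) := by
    intro i
    simp only [isDD, Bool.and_eq_true, Nat.blt_eq, ent_eq]
  have h2 : good k (toL w) = true ↔ ∀ i, 2 ≤ i → i ≤ 6 → (isDD (toL w) i = true ↔ i = k) := by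
    unfold good
    rw [List.all_eq_true]
    constructor
    · intro h i hi hi'
      have := h i (by simp; omega)
      rw [beq_iff_eq] at this
      rw [this, Nat.beq_eq]
    · intro h i hi
      have hi2 : 2 ≤ i ∧ i ≤ 6 := by simp at hi; omega
      rw [beq_iff_eq, Bool.eq_iff_iff, h i hi2.1 hi2.2, Nat.beq_eq]
  rw [h2, Finset.ext_iff]
  simp only [DDes, Finset.mem_filter, Finset.mem_Icc, Finset.mem_singleton, h1]
  constructor
  · intro h i hi hi'
    rw [← h i]
    exact ⟨fun h' => ⟨⟨hi, hi'⟩, h'⟩, fun h' => h'.2⟩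
  · intro h i
    constructor
    · rintro ⟨⟨hi, hi'⟩, h'⟩
      exact (h i hi hi').1 h'
    · rintro rfl
      exact ⟨⟨hk, hk'⟩, (h i hk hk').2 rfl⟩

lemma toL_inj : Function.Injective toL := by
  intro v w h
  ext i
  have := List.ofFn_injective h
  exact congrFun this i

lemma toL_perm (w : Equiv.Perm (Fin 7)) : (toL w).Perm (List.range 7) := by
  have h1 : toL w = (List.ofFn w).map Fin.val := by
    unfold toL; rw [List.map_ofFn]; rfl
  have h2 : List.range 7 = (List.ofFn (id : Fin 7 → Fin 7)).map Fin.val := by decide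
  rw [h1, h2]
  exact (Equiv.Perm.ofFn_comp_perm w id).map _

lemma dd_eq (k : ℕ) (hk : 2 ≤ k) (hk' : k ≤ 6) :
    dd {k} 7 = (List.range 7).permutations'.countP (good k) := by
  have hnd : (List.range 7).permutations'.Nodup :=
    (List.permutations_perm_permutations' _).nodup_iff.1 (List.nodup_permutations _ List.nodup_range)
  have himg : Finset.univ.image toL = (List.range 7).permutations'.toFinset := by
    apply Finset.eq_of_subset_of_card_le
    · intro l hl
      obtain ⟨w, _, rfl⟩ := Finset.mem_image.1 hl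
      exact List.mem_toFinset.2 (List.mem_permutations'.2 (toL_perm w))
    · rw [Finset.card_image_of_injective _ toL_inj, List.toFinset_card_of_nodup hnd,
        ← (List.permutations_perm_permutations' _).length_eq, List.length_permutations]
      simp [Fintype.card_perm]
  rw [List.countP_eq_length_filter, ← List.toFinset_card_of_nodup (hnd.filter _),
    List.toFinset_filter, ← himg, Finset.filter_image, Finset.card_image_of_injective _ toL_inj]
  exact congrArg Finset.card (Finset.filter_congr (fun w _ => good_iff k hk hk' w))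

lemma c2 : (List.range 7).permutations'.countP (good 2) = 426 := by decide +kernel
lemma c3 : (List.range 7).permutations'.countP (good 3) = 363 := by decide +kernel
lemma c4 : (List.range 7).permutations'.countP (good 4) = 462 := by decide +kernel
lemma c5 : (List.range 7).permutations'.countP (good 5) = 363 := by decide +kernel
lemma d2 : dd {2} 7 = 426 := (dd_eq 2 (by norm_num) (by norm_num)).trans c2
lemma d3 : dd {3} 7 = 363 := (dd_eq 3 (by norm_num) (by norm_num)).trans c3
lemma d4 : dd {4} 7 = 462 := (dd_eq 4 (by norm_num) (by norm_num)).trans c4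
lemma d5 : dd {5} 7 = 363 := (dd_eq 5 (by norm_num) (by norm_num)).trans c5

theorem result :
    ¬ (∀ n i : ℕ, 1 ≤ n → 1 ≤ i → (i : ℤ) < ⌈(n : ℚ) / 2⌉ - 1 →
      (Even i → (dd {i} n : ℚ) / dd {i + 1} n > (dd {i + 2} n : ℚ) / dd {i + 3} n) ∧
      (Odd i → (dd {i} n : ℚ) / dd {i + 1} n < (dd {i + 2} n : ℚ) / dd {i + 3} n)) := by
  intro H
  have hc : ⌈((7 : ℕ) : ℚ) / 2⌉ = 4 := by
    rw [Int.ceil_eq_iff]; norm_num
  have h := (H 7 2 (by norm_num) (by norm_num) (by rw [hc]; norm_num)).1 (by decide)
  have a3 : 2 + 1 = 3 := rfl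
  have a4 : 2 + 2 = 4 := rfl
  have a5 : 2 + 3 = 5 := rfl
  rw [a3, a4, a5, d2, d3, d4, d5] at h
  norm_num at h

end Pool.Agent.Results.MP_f8a98e_co.Counter
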